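import Mathlib
import Pool.Agent.H27.Hasse

namespace Pool.Agent.Results.MP_c87117_nt.Vanish
open Polynomial Finset Pool.Agent.H27.Hasse

/-- The Lucas sequence `U_n(11,1)`. -/
def U : ℕ → ℤ
  | 0 => 0
  | 1 => 1
  | (n + 2) => 11 * U (n + 1) - U n

theorem binet {F : Type*} [Field F] (a b : F) (h1 : a + b = 11) (h2 : a * b = 1) (k : ℕ) :
    (a - b) * (U k : F) = a ^ k - b ^ k := by
  induction k using Nat.twoStepInduction with
  | zero => simp [U]
  | one => simp [U]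
  | more k ih1 ih2 =>
    have : (U (k + 2) : F) = 11 * U (k + 1) - U k := by rw [U]; push_cast; ring
    rw [this]
    linear_combination 11 * ih2 - ih1 - (a ^ (k + 1) - b ^ (k + 1)) * h1 + (a ^ k - b ^ k) * h2

theorem hasse_eq (p n : ℕ) [Fact p.Prime] (hp : p = 2 * n + 1) (h3 : (3 : ZMod p) ≠ 0)
    (s : ZMod p) (hs : s ^ 2 = 13) :
    ∑ i ∈ range (n + 1), (n.choose i : ZMod p) ^ 2 * (88 - 24 * s) ^ i
      = ∑ i ∈ range (n + 1), (n.choose i : ZMod p) ^ 2 * (88 + 24 * s) ^ i := by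
  have hS : (C s : (ZMod p)[X]) ^ 2 = 13 := by rw [← map_pow, hs]; rfl
  have hm : (7 + 2 * s) ≠ 0 := by
    intro h
    apply h3
    linear_combination (-(7 - 2 * s)) * h - 4 * hs
  have t := transfer p n hp (X * (X - C 1) * (X - C (88 + 24 * s)))
    (9 * X * (X + C (28 + 8 * s)) ^ 2) (3 * X + C (2 + 2 * s))
    (27 * (X + C (28 + 8 * s)) * (X - C (22 + 6 * s)) * (X - 4))
    ((7 + 2 * s) ^ 2) ((7 + 2 * s) ^ 2 * (88 - 24 * s)) 3 h3
    (by compute_degree) (by compute_degree) (by compute_degree) (by compute_degree)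
    (by compute_degree <;> norm_num) (by compute_degree <;> norm_num)
    (by compute_degree <;> norm_num)
    (by
      simp only [derivative_mul, derivative_add, derivative_X, derivative_C, derivative_ofNat,
        pow_two, map_add, map_mul, map_ofNat]
      linear_combination ((4032) * X ^ 0 * C s ^ 0 + (1152) * X ^ 0 * C s ^ 1 + (144) * X ^ 1 * C s ^ 0) * hS)
    (by
      simp only [map_add, map_mul, map_sub, map_pow, map_ofNat, map_one]
      linear_combination ((28125554688) * X ^ 1 * C s ^ 0 + (31648684032) * X ^ 1 * C s ^ 1 + (2323445760) * X ^ 1 *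
        C s ^ 2 + (-20145494016) * X ^ 1 * C s ^ 3 + (-20599750656) * X ^ 1 * C s ^ 4 +
        (-10930692096) * X ^ 1 * C s ^ 5 + (-3525083136) * X ^ 1 * C s ^ 6 + (-690388992) * X ^ 1
        * C s ^ 7 + (-75497472) * X ^ 1 * C s ^ 8 + (-3538944) * X ^ 1 * C s ^ 9 + (9801501696) *
        X ^ 2 * C s ^ 0 + (117039504384) * X ^ 2 * C s ^ 1 + (185917344768) * X ^ 2 * C s ^ 2 +
        (119989306368) * X ^ 2 * C s ^ 3 + (34336106496) * X ^ 2 * C s ^ 4 + (1767923712) * X ^ 2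
        * C s ^ 5 + (-1370161152) * X ^ 2 * C s ^ 6 + (-320126976) * X ^ 2 * C s ^ 7 + (-22118400)
        * X ^ 2 * C s ^ 8 + (175532287104) * X ^ 3 * C s ^ 0 + (410180367744) * X ^ 3 * C s ^ 1 +
        (351780838272) * X ^ 3 * C s ^ 2 + (141135626880) * X ^ 3 * C s ^ 3 + (24517195776) * X ^
        3 * C s ^ 4 + (-47471616) * X ^ 3 * C s ^ 5 + (-567908352) * X ^ 3 * C s ^ 6 + (-53139456)
        * X ^ 3 * C s ^ 7 + (144854072064) * X ^ 4 * C s ^ 0 + (202951063296) * X ^ 4 * C s ^ 1 +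
        (105180609024) * X ^ 4 * C s ^ 2 + (21962465280) * X ^ 4 * C s ^ 3 + (163676160) * X ^ 4 *
        C s ^ 4 + (-579723264) * X ^ 4 * C s ^ 5 + (-60051456) * X ^ 4 * C s ^ 6 + (11417876640) *
        X ^ 5 * C s ^ 0 + (9927569952) * X ^ 5 * C s ^ 1 + (1619979264) * X ^ 5 * C s ^ 2 +
        (-815007744) * X ^ 5 * C s ^ 3 + (-316763136) * X ^ 5 * C s ^ 4 + (-30606336) * X ^ 5 * C
        s ^ 5 + (473794272) * X ^ 6 * C s ^ 0 + (220764528) * X ^ 6 * C s ^ 1 + (-53458704) * X ^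
        6 * C s ^ 2 + (-40528512) * X ^ 6 * C s ^ 3 + (-5225472) * X ^ 6 * C s ^ 4 + (15121404) *
        X ^ 7 * C s ^ 0 + (5765904) * X ^ 7 * C s ^ 1 + (-559872) * X ^ 7 * C s ^ 2 + (-279936) *
        X ^ 7 * C s ^ 3 + (230364) * X ^ 8 * C s ^ 0 + (69984) * X ^ 8 * C s ^ 1) * hS)
  rw [mid_coeff, mid_coeff] at t
  have e1 : (3 : ZMod p) ^ (6 * n + 3) = ((3 : ZMod p) ^ 3) ^ p := by
    rw [← pow_mul]; congr 1; omega
  rw [e1] at t
  have t2 := mul_right_cancel₀ (pow_ne_zero _ (pow_ne_zero _ h3)) t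
  have hf : (7 + 2 * s) ^ (2 * n) = 1 := by
    have := ZMod.pow_card_sub_one_eq_one hm
    rwa [show p - 1 = 2 * n by omega] at this
  have hne : ((-1 : ZMod p) ^ n) ≠ 0 := pow_ne_zero _ (by simp)
  apply mul_left_cancel₀ hne
  rw [Finset.mul_sum, Finset.mul_sum]
  convert t2 using 1
  · refine Finset.sum_congr rfl fun i hi => ?_
    obtain ⟨k, rfl⟩ := Nat.exists_eq_add_of_le (Nat.lt_succ_iff.mp (mem_range.mp hi))
    rw [Nat.add_sub_cancel_left, neg_pow ((7 + 2 * s) ^ 2), neg_pow ((7 + 2 * s) ^ 2 * _), mul_pow,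
      ← pow_mul, ← pow_mul]
    have : (7 + 2 * s) ^ (2 * k) * (7 + 2 * s) ^ (2 * i) = 1 := by
      rw [← pow_add, ← hf]; congr 1; ring
    rw [pow_add]
    linear_combination (-((-1) ^ i * (-1) ^ k * (((i + k).choose i : ℕ) : ZMod p) ^ 2
      * (88 - 24 * s) ^ i)) * this
  · refine Finset.sum_congr rfl fun i hi => ?_
    obtain ⟨k, rfl⟩ := Nat.exists_eq_add_of_le (Nat.lt_succ_iff.mp (mem_range.mp hi))
    rw [Nat.add_sub_cancel_left, neg_pow (88 + 24 * s), pow_add]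
    ring

theorem result (p : ℕ) (hp : p.Prime) (h3 : 3 < p)
    (h13 : p % 13 ∈ ({1, 3, 4, 9, 10, 12} : Finset ℕ)) :
    (p : ℤ) ∣ ∑ k ∈ Finset.range ((p - 1) / 2 + 1), ((2 * k).choose k : ℤ) ^ 2 * U k := by
  haveI : Fact p.Prime := ⟨hp⟩
  haveI : Fact (Nat.Prime 13) := ⟨by norm_num⟩
  obtain ⟨n, hn⟩ : ∃ n, p = 2 * n + 1 := (hp.odd_of_ne_two (by omega))
  have hsq : IsSquare ((p : ℕ) : ZMod 13) := by
    rw [← ZMod.natCast_mod p 13]
    simp only [Finset.mem_insert, Finset.mem_singleton] at h13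
    rcases h13 with h | h | h | h | h | h <;> rw [h]
    exacts [⟨1, rfl⟩, ⟨4, rfl⟩, ⟨2, rfl⟩, ⟨3, rfl⟩, ⟨6, rfl⟩, ⟨5, rfl⟩]
  have hsq2 : IsSquare (((13 : ℕ)) : ZMod p) :=
    (ZMod.exists_sq_eq_prime_iff_of_mod_four_eq_one (p := 13) (q := p) (by norm_num)
      (by omega)).mp hsq
  obtain ⟨s, hs⟩ := hsq2
  have hs' : s ^ 2 = 13 := by rw [pow_two, ← hs]; norm_num
  have small : ∀ m : ℕ, m.Prime → m ≠ p → (m : ZMod p) ≠ 0 := by
    intro m hm hne h
    rw [ZMod.natCast_eq_zero_iff] at h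
    exact hne ((Nat.prime_dvd_prime_iff_eq hp hm).mp h).symm
  have h2' : (2 : ZMod p) ≠ 0 := by exact_mod_cast small 2 (by norm_num) (by omega)
  have h3' : (3 : ZMod p) ≠ 0 := by exact_mod_cast small 3 (by norm_num) (by omega)
  have h13' : (13 : ZMod p) ≠ 0 := by
    have : (13 : ℕ) ≠ p := by rintro rfl; simp at h13
    exact_mod_cast small 13 (by norm_num) this
  have hs0 : s ≠ 0 := by rintro rfl; apply h13'; rw [← hs']; simp
  have H := hasse_eq p n hn h3' s hs'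
  rw [← ZMod.intCast_zmod_eq_zero_iff_dvd, show (p - 1) / 2 = n by omega]
  set a : ZMod p := (11 + 3 * s) / 2 with ha
  set b : ZMod p := (11 - 3 * s) / 2 with hb
  have hab : a + b = 11 := by rw [ha, hb]; field_simp; ring
  have hab2 : a * b = 1 := by rw [ha, hb]; field_simp; linear_combination (-9) * hs'
  have hd : a - b ≠ 0 := by
    have : a - b = 3 * s := by rw [ha, hb]; field_simp; ring
    rw [this]; exact mul_ne_zero h3' hs0
  apply mul_left_cancel₀ hd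
  push_cast
  rw [mul_zero, Finset.mul_sum, ← sub_self (∑ i ∈ range (n + 1), (n.choose i : ZMod p) ^ 2 * (88 + 24 * s) ^ i)]
  conv_rhs => rw [← H]; enter [1]; rw [H]
  rw [← Finset.sum_sub_distrib]
  refine Finset.sum_congr rfl fun k hk => ?_
  have hk' : k ≤ n := Nat.lt_succ_iff.mp (mem_range.mp hk)
  have e1 : 88 + 24 * s = (-4) * (-4) * a := by rw [ha]; field_simp; ring
  have e2 : 88 - 24 * s = (-4) * (-4) * b := by rw [hb]; field_simp; ring
  rw [centralBinom_cast p n hn k hk', e1, e2]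
  simp only [mul_pow]
  linear_combination ((n.choose k : ZMod p) ^ 2 * ((-4) ^ k) ^ 2) * binet a b hab hab2 k

end Pool.Agent.Results.MP_c87117_nt.Vanish
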